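import Pool.Agent.TH816.MQ.Ch

set_option autoImplicit false

/-! # Strings of consecutive primes that all end almost prime Cunningham chains of the first kind -/

namespace Pool.Agent.Results.MP_c77da8_nt.ChainsEndingAtConsecutivePrimes

open Finset

/-- `p` is the last term of a chain `c 0, c 1, ..., c (k - 1) = p` of the first kind,
`c (i + 1) = 2 * c i + 1`, all of whose terms have at most `R` prime factors (counted with
multiplicity), all of them larger than `y` -/
def EndsChain (k R : ℕ) (y : ℝ) (p : ℕ) : Prop :=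
  ∃ c : ℕ → ℕ, c (k - 1) = p ∧ (∀ i, i + 1 < k → c (i + 1) = 2 * c i + 1) ∧
    ∀ i < k, ArithmeticFunction.cardFactors (c i) ≤ R ∧ ∀ ℓ : ℕ, ℓ.Prime → ℓ ∣ c i → y < ℓ

open Classical in
/-- For all lengths `k ≥ 1` and all `m` there are `δ > 0`, `R` and `C` such that for every odd `f` and
every class `a` modulo `f` for which no prime factor of `f` divides one of the numbers
`a + 1 - 2 ^ i`, `i < k` (for instance `a = -1`), there is `B` such that for all large `x` at least
`x / (log x) ^ C` integers `n` of `[x, 2 x)` satisfy: `(n, n + B]` contains at least `m` primes, and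
EVERY prime `p` of `(n, n + B]` is `≡ a` modulo `f` and is the last term of a Cunningham chain of the
first kind of length `k` whose terms are products of at most `R` primes, all larger than `x ^ δ`. -/
theorem result (k m : ℕ) (hk : 1 ≤ k) : ∃ (δ : ℝ) (R C : ℕ), 0 < δ ∧ ∀ f a : ℕ, Odd f →
    (∀ i < k, ∀ ℓ : ℕ, ℓ.Prime → ℓ ∣ f → ¬ a + 1 ≡ 2 ^ i [MOD ℓ]) →
    ∃ B x₀ : ℕ, ∀ x : ℕ, x₀ ≤ x → (x : ℝ) / Real.log x ^ C ≤
      (#{n ∈ Ico x (2 * x) | m ≤ #{p ∈ Ioc n (n + B) | p.Prime} ∧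
        ∀ p ∈ Ioc n (n + B), p.Prime → p ≡ a [MOD f] ∧ EndsChain k R ((x : ℝ) ^ δ) p} : ℝ) := by
  obtain ⟨δ, R, C, hδ, h⟩ := Pool.Agent.TH816.MQ.first_kind k m hk
  refine ⟨δ, R, C, hδ, fun f a hf hfa => ?_⟩
  obtain ⟨B, x₀, h⟩ := h f a hf hfa
  refine ⟨B, x₀, fun x hx => ?_⟩
  obtain ⟨G, hG1, hG2, hG3⟩ := h x hx
  refine hG2.trans ?_
  exact_mod_cast Finset.card_le_card (fun n hn => by
    rw [mem_filter]
    refine ⟨hG1 hn, ?_, (hG3 n hn).2⟩
    convert (hG3 n hn).1)

end Pool.Agent.Results.MP_c77da8_nt.ChainsEndingAtConsecutivePrimes
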