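import Pool.Agent.TH464.PO.LinJoint

set_option autoImplicit false

/-!
# Almost prime Cunningham chains of the first kind: the joint law in several windows around them

Let `m` be good if the `k` numbers `2 ^ i (m + 1) - 1`, `i < k` (the chain `m, 2 m + 1, 4 m + 3,
…` of length `k` starting at `m`) all have at most `r` prime factors, all larger than `X ^ (1 /
r)`. Let `V` be the product of `1 - ρ(p) / p` over the primes `p ≤ X ^ (1 / r)`, `ρ(p)` the number
of the bad residues. For all `r ≥ r0` and all large `X`, in ALL intervals `(Z, Z + Y]` inside `[0,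
2 X]` of length `Y ≥ X ^ θ`: if `m` runs through the good integers in `(Z, Z + Y]`, the numbers of
the good integers in any `w` disjoint windows on both sides of `m`, at distance at most `x / V`
from `m` and not containing `m`, are asymptotically independent Poisson variables, whose means are
`V` times the lengths of the windows. In particular the gap before `m` and the gap after `m` are
asymptotically independent.
-/

namespace Pool.Agent.Results.MP_c77da8_nt.IndependentNeighbours

open Finset Filter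

/-- `N` has at most `B` prime factors (with multiplicity), all of them larger than `z`. -/
def AlmostPrime (B : ℕ) (z : ℝ) (N : ℕ) : Prop :=
  N.primeFactorsList.length ≤ B ∧ ∀ p : ℕ, p.Prime → p ∣ N → z < (p : ℝ)

/-- `m` is good: `m` starts an almost prime Cunningham chain of the first kind of length `k`: all the
`2 ^ i (m + 1) - 1`, `i < k`, have at most `r` prime factors, all larger than `X ^ (1 / r)`. -/
def Good (k r X m : ℕ) : Prop :=
  ∀ i < k, AlmostPrime r ((X : ℝ) ^ (1 / (r : ℝ))) (2 ^ i * (m + 1) - 1)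

open Classical in
/-- The sieve density: the product of `1 - ρ(p) / p` over the primes `p ≤ X ^ (1 / r)`, where `ρ(p)` is
the number of the `t` mod `p` with `p` dividing one of the `2 ^ i (t + 1) - 1`, `i < k`. -/
noncomputable def V (k r X : ℕ) : ℝ :=
  ∏ p ∈ (Finset.range (⌊(X : ℝ) ^ (1 / (r : ℝ))⌋₊ + 1)).filter Nat.Prime,
    (1 - (((Finset.range p).filter (fun t : ℕ => ∃ i < k, p ∣ 2 ^ i * (t + 1) - 1)).card : ℝ) / p)

open Classical in
/-- The number of the good `m` in `(u, v]`. -/
noncomputable def N (k r X : ℕ) (u v : ℕ) : ℕ :=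
  ((Finset.Ioc u v).filter (fun m => Good k r X m)).card

/-- The probability of `E` for the Poisson distribution of mean `x`. -/
noncomputable def Poi (x : ℝ) (E : Finset ℕ) : ℝ :=
  ∑ j ∈ E, Real.exp (-x) * x ^ j / j.factorial

open Pool.Agent.TH464.PO Pool.Agent.H373R2.T7 Pool.Agent.W123.RP

lemma fam (k : ℕ) (hk : 2 ≤ k) (r : ℕ) (hr : 1 ≤ r) : ∀ᶠ X : ℕ in atTop, ∀ _ : Unit, True →
    ∃ u v : Fin k → ℤ, LF k u v (X ^ 1) (Real.log X ^ (k + 1)) ∧
      (∀ m ≤ 3 * X, Sf (QL u v) ⌊(X : ℝ) ^ (1 / (r : ℝ))⌋₊ m ↔ Good k r X m) ∧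
      Vq (QL u v) ⌊(X : ℝ) ^ (1 / (r : ℝ))⌋₊ = V k r X := by
  filter_upwards [c1_fam k hk r hr] with X h _ _
  exact ⟨_, _, h.1, h.2, V_nat (c1u k) (c1v k) _ (fun p m => c1_ex k (fun N => p ∣ N) m) _⟩

open Classical in
/-- **The joint law in several windows around the good integers**, in all intervals. The windows around
`m` are the `(m - q + u_i, m - q + v_i]`; as `v_i < q` or `q ≤ u_i`, they do not contain `m`. -/
theorem result (k : ℕ) (hk : 2 ≤ k) (θ : ℝ) (hθ : 0 < θ) (w : ℕ) (x ε : ℝ) (hε : 0 < ε) :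
    ∃ r0 : ℕ, ∀ r : ℕ, r0 ≤ r → ∀ᶠ X : ℕ in atTop, ∀ Z Y : ℕ, (X : ℝ) ^ θ ≤ Y →
      Z + Y ≤ 2 * X → ∀ (q : ℕ) (u v : Fin w → ℕ), q * V k r X ≤ x → (∀ i, u i ≤ v i) →
      (∀ i, v i * V k r X ≤ x) → (∀ i, v i < q ∨ q ≤ u i) →
      (∀ i j, i ≠ j → v i ≤ u j ∨ v j ≤ u i) → ∀ E : Fin w → Finset ℕ,
        |(((Finset.Ioc Z (Z + Y)).filter (fun m => Good k r X m ∧
            ∀ i, N k r X (m + u i - q) (m + v i - q) ∈ E i)).card : ℝ) -
          Y * V k r X * ∏ i, Poi (((v i : ℝ) - u i) * V k r X) (E i)| ≤ ε * (Y * V k r X) := by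
  obtain ⟨r0, h⟩ := fam_palm k 1 (by omega) (fun _ (_ : Unit) => True) (fun r X _ m => Good k r X m)
    (fun r X _ => V k r X) (fam k hk) θ hθ w x ε hε
  refine ⟨r0, fun r hr => ?_⟩
  filter_upwards [h r hr] with X hX
  exact hX () trivial

end Pool.Agent.Results.MP_c77da8_nt.IndependentNeighbours
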