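import Pool.Agent.TH977.PW.Inst

set_option autoImplicit false

/-!
# Almost prime Cunningham chains of the first kind around almost all of them

Let `k ≥ 1` and let `R k r` be the set of the `p` for which all prime factors of the terms
`2 ^ i (p + 1) - 1` (`0 ≤ i < k`) of the chain starting at `p` are larger than `p ^ (1 / r)`; it
contains the first terms of all Cunningham chains of the first kind of length `k`. The interval
`(X, 2X]` contains at least `κ X / log ^ k X` PRIMES `p` in `R k r` such that all terms of the chain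
have at most `r` prime factors. Let `A` be an ARBITRARY subset of `R k r` (these primes, or the
first terms of the Cunningham chains of length `k`). In every short interval `(X, X + Y]`,
`X ^ θ ≤ Y ≤ X / 2`, all but `ε Y / log ^ k X` of the elements of `A` are regular points of `A`.
-/

namespace Pool.Agent.Results.MP_c77da8_nt.RegularChains

open Finset Filter
open Pool.Agent.TH977.PW (N Irregular)

/-- The term `2 ^ i (p + 1) - 1` of the chain of the first kind starting at `p`. -/
def term (i p : ℕ) : ℕ := 2 ^ i * (p + 1) - 1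

/-- All prime factors of the first `k` terms are larger than `p ^ (1 / r)`. -/
def R (k r : ℕ) : Set ℕ :=
  {p | ∀ i < k, ∀ q : ℕ, q.Prime → q ∣ term i p → (p : ℝ) ^ (1 / (r : ℝ)) < (q : ℝ)}

lemma cast_eq (i m : ℕ) : ((2 ^ i : ℕ) : ℤ) * (m : ℤ) + (2 ^ i - 1) = ((term i m : ℕ) : ℤ) := by
  unfold term
  have h : 1 ≤ 2 ^ i * (m + 1) := Nat.one_le_iff_ne_zero.2 (by positivity)
  rw [Nat.cast_sub h]
  push_cast
  ring

lemma le_term (i p : ℕ) : p ≤ term i p := by
  unfold term
  have h : 1 ≤ 2 ^ i := Nat.one_le_two_pow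
  have h2 : 1 * (p + 1) ≤ 2 ^ i * (p + 1) := Nat.mul_le_mul_right _ h
  omega

/-- **Regular Cunningham chains of the first kind.** -/
theorem result (k : ℕ) (hk : 1 ≤ k) (θ : ℝ) (hθ : 0 < θ) (hθ1 : θ ≤ 1) :
    ∃ r₀ : ℕ, 2 ≤ r₀ ∧ ∀ r : ℕ, r₀ ≤ r →
      (∀ p : ℕ, (∀ i < k, (term i p).Prime) → p ∈ R k r) ∧
      (∃ κ : ℝ, 0 < κ ∧ ∀ᶠ X : ℕ in atTop, κ * X / Real.log X ^ k ≤
        N {p | p.Prime ∧ p ∈ R k r ∧ ∀ i < k, (term i p).primeFactorsList.length ≤ r} X (2 * X)) ∧
      ∀ ε : ℝ, 0 < ε → ∃ c : ℝ, 0 < c ∧ ∀ δ : ℝ, 0 < δ → ∃ B : ℕ,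
        ∀ᶠ X : ℕ in atTop, ∀ Y : ℕ, (X : ℝ) ^ θ ≤ Y → 2 * Y ≤ X → ∀ A : Set ℕ, A ⊆ R k r →
          (N (Irregular A k c δ B X Y) X (X + Y) : ℝ) ≤ ε * Y / Real.log X ^ k := by
  have t0 : ∀ m, term 0 m = m := fun m => by unfold term; simp
  obtain ⟨r0, hr0, h⟩ := Pool.Agent.TH977.PW.final_lin_prime
    (fun i : Fin (k - 1) => 2 ^ (i.1 + 1)) (fun i : Fin (k - 1) => (2 ^ (i.1 + 1) - 1 : ℤ))
    (fun i => by positivity)
    (fun i => ⟨1, -1, by push_cast; ring⟩)
    (fun i j hij _ => by
      have := Nat.pow_right_injective le_rfl hij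
      exact Fin.ext (by omega))
    (fun i hi => by
      have : 2 ^ 1 ≤ 2 ^ (i.1 + 1) := Nat.pow_le_pow_right (by norm_num) (by omega)
      omega)
    (fun p hp => by
      refine ⟨p - 1, ?_, fun i hd => ?_⟩
      · intro h1
        have := hp.two_le
        have := Nat.le_of_dvd (by omega) h1
        omega
      · rw [cast_eq, Int.natCast_dvd_natCast] at hd
        unfold term at hd
        have h1 := hp.two_le
        have h2 : p - 1 + 1 = p := by omega
        rw [h2] at hd
        have h3 : p ∣ 2 ^ (i.1 + 1) * p := dvd_mul_left _ _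
        have h4 : 1 ≤ 2 ^ (i.1 + 1) * p := Nat.one_le_iff_ne_zero.2 (by positivity)
        have h5 := Nat.dvd_sub h3 hd
        have h6 : 2 ^ (i.1 + 1) * p - (2 ^ (i.1 + 1) * p - 1) = 1 := by omega
        rw [h6] at h5
        exact hp.one_lt.ne' (Nat.dvd_one.1 h5))
    (fun r => R k r)
    (fun r => {p | p.Prime ∧ p ∈ R k r ∧ ∀ i < k, (term i p).primeFactorsList.length ≤ r})
    k (by rw [Fintype.card_fin]; omega)
    (fun r m _ hm => ⟨fun p hp hd => hm 0 (by omega) p hp (by rw [t0]; exact hd),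
      fun i p hp hd => hm (i.1 + 1) (by have := i.2; omega) p hp (by
      rw [cast_eq, Int.natCast_dvd_natCast] at hd
      exact hd)⟩)
    (fun r m hr hm h1 h2 => by
      have hr1 : 1 ≤ r := by omega
      refine ⟨hm, ?_, ?_⟩
      · intro i hi q hq hd
        rcases Nat.eq_zero_or_pos i with h0 | h0
        · subst h0
          rw [t0] at hd
          exact Pool.Agent.TH977.PW.rpow_lt_dvd r m q hr hm hq hd
        · refine h1 ⟨i - 1, by omega⟩ q hq ?_
          rw [cast_eq, Int.natCast_dvd_natCast]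
          simp only
          rw [Nat.sub_add_cancel h0]
          exact hd
      · intro i hi
        rcases Nat.eq_zero_or_pos i with h0 | h0
        · subst h0
          rw [t0, Nat.primeFactorsList_prime hm]
          exact hr1
        · have := h2 ⟨i - 1, by omega⟩
          rw [cast_eq, Int.natAbs_natCast] at this
          simp only at this
          rw [Nat.sub_add_cancel h0] at this
          exact this) θ hθ hθ1
  refine ⟨r0, hr0, fun r hr => ⟨?_, (h r hr).1, (h r hr).2⟩⟩
  intro p hp i hi q hq hd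
  have hp0 : p.Prime := by
    have := hp 0 (by omega)
    rwa [t0] at this
  rw [(Nat.prime_dvd_prime_iff_eq hq (hp i hi)).1 hd]
  exact Pool.Agent.TH977.PW.rpow_lt_of_le r p _ (hr0.trans hr) hp0.two_le (le_term i p)

end Pool.Agent.Results.MP_c77da8_nt.RegularChains
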